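import Pool.Agent.H74.OD.Stm

/-!
# Project WG (MP_79abb3_an): wedges of angle π/m

THEOREM. Let `m ≥ 1`. Between two half planes which meet under the angle `π/m` (no-slip walls) every parallel flow along the
edge, `(0,0,w₀(x_0,x_1))` with `w₀` an arbitrary square integrable function on the sector of radius `A`, is brought to rest
in arbitrarily short time by a parallel solution of the Navier-Stokes equations with zero pressure.

CONSTRUCTION. Let `w` be the solution of `Two (4A) (4A) T` (project OD) with the data `w₀` (extended by zero) around the centre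
`(2A, 2A)`. With the rotations `R_k` by `2πk/m` and the reflections `S_k z = e^{2πik/m} conj z` (`k < m`) put
`v(t,z) = ∑_k (w(t, centre + R_k z) - w(t, centre + S_k z))`: a solution of the heat equation for `|z| < 2A`, zero on the mirrors
(the walls are the mirrors of `S_0` and `S_1`), zero for `t ≥ T`, with the data `w₀` in the sector, because the images of the
open sector are disjoint.

Every stub: file `Pool/Agent/H74/WG/T/NAME.lean`, `import Pool.Agent.H74.WG.Stm`, namespace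
`Pool.Agent.H74.WG.T.NAME`, `theorem main : S_NAME` (used stubs as hypotheses).
-/

set_option autoImplicit false

namespace Pool.Agent.H74.WG

open MeasureTheory Filter Topology Set Pool.Agent.H74.OD
open scoped ENNReal

/-- a solution of the heat equation for `t > 0` in the open set `N` of the plane, with its derivatives -/
structure Sol (N : Set (ℝ × ℝ)) (w wt wx wy wxx wyy wxy : ℝ → ℝ → ℝ → ℝ) : Prop where
  dt : ∀ t x y, 0 < t → (x, y) ∈ N → HasDerivAt (fun s => w s x y) (wt t x y) t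
  dx : ∀ t x y, 0 < t → (x, y) ∈ N → HasDerivAt (fun s => w t s y) (wx t x y) x
  dy : ∀ t x y, 0 < t → (x, y) ∈ N → HasDerivAt (fun s => w t x s) (wy t x y) y
  dxx : ∀ t x y, 0 < t → (x, y) ∈ N → HasDerivAt (fun s => wx t s y) (wxx t x y) x
  dyy : ∀ t x y, 0 < t → (x, y) ∈ N → HasDerivAt (fun s => wy t x s) (wyy t x y) y
  dxy : ∀ t x y, 0 < t → (x, y) ∈ N → HasDerivAt (fun s => wx t x s) (wxy t x y) y
  dyx : ∀ t x y, 0 < t → (x, y) ∈ N → HasDerivAt (fun s => wy t s y) (wxy t x y) x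
  eq : ∀ t x y, 0 < t → (x, y) ∈ N → wt t x y = wxx t x y + wyy t x y
  ct : ContinuousOn (fun q : ℝ × ℝ × ℝ => wt q.1 q.2.1 q.2.2) {q | 0 < q.1 ∧ q.2 ∈ N}
  cx : ContinuousOn (fun q : ℝ × ℝ × ℝ => wx q.1 q.2.1 q.2.2) {q | 0 < q.1 ∧ q.2 ∈ N}
  cy : ContinuousOn (fun q : ℝ × ℝ × ℝ => wy q.1 q.2.1 q.2.2) {q | 0 < q.1 ∧ q.2 ∈ N}
  cxx : ContinuousOn (fun q : ℝ × ℝ × ℝ => wxx q.1 q.2.1 q.2.2) {q | 0 < q.1 ∧ q.2 ∈ N}
  cyy : ContinuousOn (fun q : ℝ × ℝ × ℝ => wyy q.1 q.2.1 q.2.2) {q | 0 < q.1 ∧ q.2 ∈ N}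
  cxy : ContinuousOn (fun q : ℝ × ℝ × ℝ => wxy q.1 q.2.1 q.2.2) {q | 0 < q.1 ∧ q.2 ∈ N}

/-- **ROT** (120 lines). Orthogonal affine change of variables.
PROOF. `w t` is differentiable in `N` (continuous partials, `N` open: e.g. `HasStrictFDerivAt` from continuous partial
derivatives, see `Pool/Agent/H74/OD/T/NSP.lean`), so are `wx t`, `wy t`; chain rule. The heat equation:
`(a²+b²) wxx + 2 (ac+bd) wxy + (c²+d²) wyy = wxx + wyy`. -/
def S_ROT : Prop := ∀ (N : Set (ℝ × ℝ)) (w wt wx wy wxx wyy wxy : ℝ → ℝ → ℝ → ℝ), IsOpen N →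
  Sol N w wt wx wy wxx wyy wxy → ∀ a b c d e f : ℝ, a ^ 2 + b ^ 2 = 1 → c ^ 2 + d ^ 2 = 1 →
  a * c + b * d = 0 →
  Sol {q | (a * q.1 + b * q.2 + e, c * q.1 + d * q.2 + f) ∈ N}
    (fun t x y => w t (a * x + b * y + e) (c * x + d * y + f))
    (fun t x y => wt t (a * x + b * y + e) (c * x + d * y + f))
    (fun t x y => a * wx t (a * x + b * y + e) (c * x + d * y + f) +
      c * wy t (a * x + b * y + e) (c * x + d * y + f))
    (fun t x y => b * wx t (a * x + b * y + e) (c * x + d * y + f) +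
      d * wy t (a * x + b * y + e) (c * x + d * y + f))
    (fun t x y => a ^ 2 * wxx t (a * x + b * y + e) (c * x + d * y + f) +
      2 * a * c * wxy t (a * x + b * y + e) (c * x + d * y + f) +
      c ^ 2 * wyy t (a * x + b * y + e) (c * x + d * y + f))
    (fun t x y => b ^ 2 * wxx t (a * x + b * y + e) (c * x + d * y + f) +
      2 * b * d * wxy t (a * x + b * y + e) (c * x + d * y + f) +
      d ^ 2 * wyy t (a * x + b * y + e) (c * x + d * y + f))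
    (fun t x y => a * b * wxx t (a * x + b * y + e) (c * x + d * y + f) +
      (a * d + b * c) * wxy t (a * x + b * y + e) (c * x + d * y + f) +
      c * d * wyy t (a * x + b * y + e) (c * x + d * y + f))

/-- **ADD** (60 lines). Finite linear combinations (`HasDerivAt.fun_sum`, `continuousOn_finset_sum`). -/
def S_ADD : Prop := ∀ (N : Set (ℝ × ℝ)) (ι : Type) (s : Finset ι) (σ : ι → ℝ)
  (w wt wx wy wxx wyy wxy : ι → ℝ → ℝ → ℝ → ℝ),
  (∀ i ∈ s, Sol N (w i) (wt i) (wx i) (wy i) (wxx i) (wyy i) (wxy i)) →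
  Sol N (fun t x y => ∑ i ∈ s, σ i * w i t x y) (fun t x y => ∑ i ∈ s, σ i * wt i t x y)
    (fun t x y => ∑ i ∈ s, σ i * wx i t x y) (fun t x y => ∑ i ∈ s, σ i * wy i t x y)
    (fun t x y => ∑ i ∈ s, σ i * wxx i t x y) (fun t x y => ∑ i ∈ s, σ i * wyy i t x y)
    (fun t x y => ∑ i ∈ s, σ i * wxy i t x y)

/-- the open sector of radius `A` and angle `π/m` -/
def Sector (m : ℕ) (A : ℝ) : Set (ℝ × ℝ) :=
  {q | q.1 ^ 2 + q.2 ^ 2 < A ^ 2 ∧ 0 < q.2 ∧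
    0 < Real.sin (Real.pi / m) * q.1 - Real.cos (Real.pi / m) * q.2}

/-- angle of the `k`-th rotation -/
noncomputable def ang (m k : ℕ) : ℝ := 2 * Real.pi * k / m

/-- rotation (`σ = 1`) or reflection (`σ = -1`): `z ↦ e^{i ang} z`, `z ↦ e^{i ang} conj z`, around the centre `(2A, 2A)` -/
noncomputable def mv (m : ℕ) (A : ℝ) (k : ℕ) (σ : ℝ) (q : ℝ × ℝ) : ℝ × ℝ :=
  (Real.cos (ang m k) * q.1 + -(σ * Real.sin (ang m k)) * q.2 + 2 * A,
    Real.sin (ang m k) * q.1 + σ * Real.cos (ang m k) * q.2 + 2 * A)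

/-- the antisymmetric combination -/
noncomputable def asym (m : ℕ) (A : ℝ) (w : ℝ → ℝ → ℝ → ℝ) (t x y : ℝ) : ℝ :=
  ∑ k ∈ Finset.range m, (w t (mv m A k 1 (x, y)).1 (mv m A k 1 (x, y)).2 -
    w t (mv m A k (-1) (x, y)).1 (mv m A k (-1) (x, y)).2)

/-- `w₀` around the centre `(2A, 2A)`, zero outside the sector -/
noncomputable def ext (m : ℕ) (A : ℝ) (w₀ : ℝ × ℝ → ℝ) (q : ℝ × ℝ) : ℝ :=
  (Sector m A).indicator w₀ (q.1 - 2 * A, q.2 - 2 * A)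

/-- **GEO** (100 lines). The images of the open sector are disjoint.
PROOF. `q = r (cos θ, sin θ)` with `r > 0`, `0 < θ < π/m` (`Complex.arg`; `0 < q.2` gives `θ ∈ (0,π)`, the last condition is
`r sin(π/m - θ) > 0`). `R_k q` has the angle `θ + 2πk/m`, between `2π/m` and `2π` for `1 ≤ k < m`, `S_k q` the angle
`2πk/m - θ`. If such a point were in the sector, `sin(φ) > 0` and `sin(π/m - φ) > 0` for its angle `φ`, so `φ` would be in
`(0, π/m)` modulo `2π`: impossible. -/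
def S_GEO : Prop := ∀ (m : ℕ) (A : ℝ) (w₀ : ℝ × ℝ → ℝ), 1 ≤ m → 0 < A → ∀ q ∈ Sector m A,
  (∀ k, k < m → ext m A w₀ (mv m A k 1 q) = if k = 0 then w₀ q else 0) ∧
    ∀ k, k < m → ext m A w₀ (mv m A k (-1) q) = 0

/-- **MIR** (60 lines). `asym` vanishes on the mirrors. PROOF. On the line `y = 0`: `mv k (-1) = mv k 1`. At
`(r cos(π/m), r sin(π/m))`: `S_k z = R_{k-1} z`, i.e. `mv (k+1) (-1) z = mv k 1 z` for `k+1 < m` and `mv 0 (-1) z = mv (m-1) 1 z` (angles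
modulo `2π`), so the two sums have the same terms (`Finset.sum_range_succ'` and `sum_range_succ`). -/
def S_MIR : Prop := ∀ (m : ℕ) (A : ℝ) (w : ℝ → ℝ → ℝ → ℝ) (t r : ℝ), 1 ≤ m →
  asym m A w t r 0 = 0 ∧ asym m A w t (r * Real.cos (Real.pi / m)) (r * Real.sin (Real.pi / m)) = 0

/-- **CHV** (60 lines). Change of variables: `mv` is an isometry of the plane which maps the sector into `Rec (4A) (4A)`.
(`mv` is injective, measurable, preserves Lebesgue measure: linear map of determinant `±1` plus a translation;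
`|q| < A` gives coordinates in `(A, 3A)`.) -/
def S_CHV : Prop := ∀ (m : ℕ) (A : ℝ) (k : ℕ) (σ : ℝ) (G : ℝ × ℝ → ℝ≥0∞), 0 < A → (σ = 1 ∨ σ = -1) →
  ∫⁻ q in Sector m A, G (mv m A k σ q) ≤ ∫⁻ q in Rec (4 * A) (4 * A), G q

/-- **EXT** (40 lines). The extension is square integrable on the square. -/
def S_EXT : Prop := ∀ (m : ℕ) (A : ℝ) (w₀ : ℝ × ℝ → ℝ), 1 ≤ m → 0 < A →
  MemLp w₀ 2 (volume.restrict (Sector m A)) →
    MemLp (ext m A w₀) 2 (volume.restrict (Rec (4 * A) (4 * A)))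

/-- **WIN** (100 lines). `theorem main (hi : OD.S_INI) (hg : S_GEO) (hc : S_CHV) (he : S_EXT) : S_WIN`.
PROOF. For `t ≤ T/2` and `q` in the sector, by GEO
`asym w t q - w₀ q = ∑_k ((w t - ext)(mv k 1 q) - (w t - ext)(mv k (-1) q))`, so `‖·‖² ≤ 2m ∑ ‖·‖²` (`ENNReal` version of Cauchy-Schwarz,
`ENNReal.inner_le_nnorm_mul_nnorm` or `(∑ a_i)² ≤ n ∑ a_i²`); CHV (the points are in the square, where `early` holds since
`|x| < 4A`) and INI. -/
def S_WIN : Prop := ∀ (m : ℕ) (A T : ℝ) (w₀ : ℝ × ℝ → ℝ) (w wt wx wy wxx wyy wxy : ℝ → ℝ → ℝ → ℝ),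
  1 ≤ m → 0 < A → 0 < T → MemLp w₀ 2 (volume.restrict (Sector m A)) →
  Two (4 * A) (4 * A) T (bc (4 * A) (4 * A) (ext m A w₀)) w wt wx wy wxx wyy wxy →
  Tendsto (fun t : ℝ => ∫⁻ q in Sector m A, ‖asym m A w t q.1 q.2 - w₀ q‖ₑ ^ 2) (𝓝[>] 0) (𝓝 0)

/-- the derivatives of `asym` in `x` and `y` -/
noncomputable def asymx (m : ℕ) (A : ℝ) (wx wy : ℝ → ℝ → ℝ → ℝ) (t x y : ℝ) : ℝ :=
  ∑ k ∈ Finset.range m,
    ((Real.cos (ang m k) * wx t (mv m A k 1 (x, y)).1 (mv m A k 1 (x, y)).2 +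
      Real.sin (ang m k) * wy t (mv m A k 1 (x, y)).1 (mv m A k 1 (x, y)).2) -
    (Real.cos (ang m k) * wx t (mv m A k (-1) (x, y)).1 (mv m A k (-1) (x, y)).2 +
      Real.sin (ang m k) * wy t (mv m A k (-1) (x, y)).1 (mv m A k (-1) (x, y)).2))

noncomputable def asymy (m : ℕ) (A : ℝ) (wx wy : ℝ → ℝ → ℝ → ℝ) (t x y : ℝ) : ℝ :=
  ∑ k ∈ Finset.range m,
    ((-Real.sin (ang m k) * wx t (mv m A k 1 (x, y)).1 (mv m A k 1 (x, y)).2 +
      Real.cos (ang m k) * wy t (mv m A k 1 (x, y)).1 (mv m A k 1 (x, y)).2) -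
    (Real.sin (ang m k) * wx t (mv m A k (-1) (x, y)).1 (mv m A k (-1) (x, y)).2 -
      Real.cos (ang m k) * wy t (mv m A k (-1) (x, y)).1 (mv m A k (-1) (x, y)).2))

/-- **WEN** (130 lines). Finite dissipation in the sector. `theorem main (hd : OD.S_DIS) (hc : S_CHV) (he : S_EXT) : S_WEN`.
PROOF. `‖asymx‖² + ‖asymy‖² ≤ C_m ∑_{k,σ} (‖wx‖² + ‖wy‖²)(mv k σ q)`, CHV. For `t ≤ T/2` by `earlyx`, `earlyy` and DIS; for
`T/2 ≤ t ≤ T`: `wx`, `wy` are continuous, hence bounded on `[T/2,T] x [A,3A]²` (the images of the sector lie in `[A,3A]²`);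
for `t > T`: `w = 0` for `|x| < 4A`, so `wx = wy = 0`. -/
def S_WEN : Prop := ∀ (m : ℕ) (A T : ℝ) (w₀ : ℝ × ℝ → ℝ) (w wt wx wy wxx wyy wxy : ℝ → ℝ → ℝ → ℝ),
  1 ≤ m → 0 < A → 0 < T → MemLp w₀ 2 (volume.restrict (Sector m A)) →
  Two (4 * A) (4 * A) T (bc (4 * A) (4 * A) (ext m A w₀)) w wt wx wy wxx wyy wxy →
  ∫⁻ t in Ioi (0 : ℝ), ∫⁻ q in Sector m A,
    (‖asymx m A wx wy t q.1 q.2‖ₑ ^ 2 + ‖asymy m A wx wy t q.1 q.2‖ₑ ^ 2) < ⊤

/-- **ASY** (100 lines). `asym` solves the heat equation for `x² + y² < 4A²`. `theorem main (hr : S_ROT) (ha : S_ADD) : S_ASY`.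
PROOF. `Two` gives `Sol {q | |q.1| < 4A}`; ROT with `(a,b,c,d,e,f) = (cos, -σ sin, sin, σ cos, 2A, 2A)` on the disc (a subset of the
preimage, as `|mv| ≤ 2A + 2A`; restriction of `Sol` to a smaller open set is trivial), ADD. -/
def S_ASY : Prop := ∀ (m : ℕ) (A T : ℝ) (b : ℕ → ℕ → ℝ) (w wt wx wy wxx wyy wxy : ℝ → ℝ → ℝ → ℝ),
  0 < A → Two (4 * A) (4 * A) T b w wt wx wy wxx wyy wxy →
  ∃ vt vxx vyy vxy : ℝ → ℝ → ℝ → ℝ,
    Sol {q | q.1 ^ 2 + q.2 ^ 2 < (2 * A) ^ 2} (asym m A w) vt (asymx m A wx wy) (asymy m A wx wy) vxx vyy vxy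

open Pool.Agent.H74.CD (pd)

/-- the piece of height `2c` above the sector -/
def SDuct (m : ℕ) (A c : ℝ) : Set (Fin 3 → ℝ) := {x | (x 0, x 1) ∈ Sector m A ∧ |x 2| < c}

/-- `u` is a parallel solution of the Navier-Stokes equations with zero pressure in the cylinder `x_0² + x_1² ≤ A²`, `t > 0`
(regular in a neighbourhood `N`), zero on the half planes of angle `0` and `π/m`, at rest for `t ≥ T`, with initial velocity
`(0, 0, w₀ (x_0, x_1))` and finite total dissipation in every piece over the sector. -/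
structure Wedge (m : ℕ) (A T : ℝ) (w₀ : ℝ × ℝ → ℝ) (u : ℝ → (Fin 3 → ℝ) → (Fin 3 → ℝ)) : Prop where
  regular : ∃ N : Set (Fin 3 → ℝ), IsOpen N ∧ {x | x 0 ^ 2 + x 1 ^ 2 ≤ A ^ 2} ⊆ N ∧
    ContDiffOn ℝ 1 (fun q : ℝ × (Fin 3 → ℝ) => u q.1 q.2) (Ioi 0 ×ˢ N) ∧
    (∀ t, 0 < t → ContDiffOn ℝ 2 (u t) N) ∧
    ∀ i k : Fin 3, ContinuousOn
      (fun q : ℝ × (Fin 3 → ℝ) => pd i (fun y => pd i (fun z => u q.1 z k) y) q.2) (Ioi 0 ×ˢ N)
  axial : ∀ t x, u t x 0 = 0 ∧ u t x 1 = 0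
  momentum : ∀ t, 0 < t → ∀ x : Fin 3 → ℝ, x 0 ^ 2 + x 1 ^ 2 ≤ A ^ 2 → ∀ k : Fin 3,
    deriv (fun s => u s x k) t + ∑ i, u t x i * pd i (fun y => u t y k) x =
      ∑ i, pd i (fun y => pd i (fun z => u t z k) y) x
  div : ∀ t, 0 < t → ∀ x : Fin 3 → ℝ, x 0 ^ 2 + x 1 ^ 2 ≤ A ^ 2 → ∑ i, pd i (fun y => u t y i) x = 0
  wall : ∀ t, 0 < t → ∀ r z : ℝ, 0 ≤ r → r ≤ A → u t ![r, 0, z] = 0 ∧
    u t ![r * Real.cos (Real.pi / m), r * Real.sin (Real.pi / m), z] = 0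
  rest : ∀ t, T ≤ t → ∀ x : Fin 3 → ℝ, x 0 ^ 2 + x 1 ^ 2 ≤ A ^ 2 → u t x = 0
  initial : ∀ c, 0 < c → Tendsto (fun t => ∫⁻ x in SDuct m A c, ‖u t x 2 - w₀ (x 0, x 1)‖ₑ ^ 2)
    (𝓝[>] 0) (𝓝 0)
  energy : ∀ c, 0 < c → ∫⁻ t in Ioi (0 : ℝ), ∫⁻ x in SDuct m A c,
    ∑ i, ∑ k, ‖pd i (fun y => u t y k) x‖ₑ ^ 2 < ⊤

/-- **NSW** (100 lines). As OD-NSP (`Pool/Agent/H74/OD/T/NSP.lean`, same proof) for `Sol` on an open set `N` of the plane. -/
def S_NSW : Prop := ∀ (N : Set (ℝ × ℝ)) (w wt wx wy wxx wyy wxy : ℝ → ℝ → ℝ → ℝ), IsOpen N →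
  Sol N w wt wx wy wxx wyy wxy →
  ContDiffOn ℝ 1 (fun q : ℝ × (Fin 3 → ℝ) => par w q.1 q.2) (Ioi 0 ×ˢ {x : Fin 3 → ℝ | (x 0, x 1) ∈ N}) ∧
  (∀ t, 0 < t → ContDiffOn ℝ 2 (par w t) {x : Fin 3 → ℝ | (x 0, x 1) ∈ N}) ∧
  ∀ t, 0 < t → ∀ x : Fin 3 → ℝ, (x 0, x 1) ∈ N →
    (pd 0 (fun y => par w t y 2) x = wx t (x 0) (x 1) ∧ pd 1 (fun y => par w t y 2) x = wy t (x 0) (x 1) ∧
      pd 2 (fun y => par w t y 2) x = 0) ∧
    (∀ i k : Fin 3, k ≠ 2 → pd i (fun y => par w t y k) x = 0) ∧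
    pd 0 (fun y => pd 0 (fun z => par w t z 2) y) x = wxx t (x 0) (x 1) ∧
    pd 1 (fun y => pd 1 (fun z => par w t z 2) y) x = wyy t (x 0) (x 1) ∧
    pd 2 (fun y => pd 2 (fun z => par w t z 2) y) x = 0

/-- **FUW** (60 lines). Functions of `(x 0, x 1)` on the piece over the sector (see `Pool/Agent/H74/OD/T/FUB.lean`). -/
def S_FUW : Prop := ∀ (m : ℕ) (A c : ℝ) (G : ℝ × ℝ → ℝ≥0∞), 0 < c →
  AEMeasurable G (volume.restrict (Sector m A)) →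
  ∫⁻ x in SDuct m A c, G (x 0, x 1) = ENNReal.ofReal (2 * c) * ∫⁻ q in Sector m A, G q

/-- **WFIN** (150 lines; see `Pool/Agent/H74/OD/T/FIN.lean`).
`theorem main (ht : OD.S_TWO) (hb : OD.S_BDB) (he : S_EXT) (hw : S_WIN) (hn : S_WEN) (ha : S_ASY) (hm : S_MIR) (hp : S_NSW) (hf : S_FUW) : S_WFIN`.
PROOF. `w` from TWO with `Y = B = 4A`, `b = bc (4A) (4A) (ext m A w₀)`, `u = par (asym m A w)`. -/
def S_WFIN : Prop := ∀ (m : ℕ) (A T : ℝ) (w₀ : ℝ × ℝ → ℝ), 1 ≤ m → 0 < A → 0 < T →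
  MemLp w₀ 2 (volume.restrict (Sector m A)) →
    ∃ u : ℝ → (Fin 3 → ℝ) → (Fin 3 → ℝ), Wedge m A T w₀ u

end Pool.Agent.H74.WG
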